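import Pool.Agent.Helper48_LPY.Stmts
import Pool.Agent.Common_LLL.Basic

/-!
# LPY, module BLL: local lemma with events indexed by connected sets
-/

set_option autoImplicit false

namespace Pool.Agent.LPY.H87

open Pool.Agent.LPY

theorem sum_biUnion_le' {κ ι : Type} [DecidableEq κ] [DecidableEq ι] (s : Finset κ)
    (t : κ → Finset ι) (f : ι → ℝ) (hf : ∀ i, 0 ≤ f i) :
    ∑ i ∈ s.biUnion t, f i ≤ ∑ x ∈ s, ∑ i ∈ t x, f i := by
  induction s using Finset.induction_on with
  | empty => simp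
  | insert a s ha ih =>
    rw [Finset.biUnion_insert, Finset.sum_insert ha]
    have h1 := Finset.sum_union_inter (s₁ := t a) (s₂ := s.biUnion t) (f := f)
    have h2 : 0 ≤ ∑ i ∈ t a ∩ s.biUnion t, f i := Finset.sum_nonneg fun i _ => hf i
    linarith

/-- the local lemma with a bound for the weights at a coordinate -/
theorem lll_weights {I α ι : Type} [Fintype I] [DecidableEq I] [Fintype α] [DecidableEq α]
    [Nonempty α] [Fintype ι] [DecidableEq ι] (A : ι → Finset (I → α)) (W : ι → Finset I)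
    (hA : ∀ i, ∀ ω ω' : I → α, (∀ v ∈ W i, ω v = ω' v) → ω ∈ A i → ω' ∈ A i)
    (x : ι → ℝ) (s : ℝ) (hx0 : ∀ i, 0 ≤ x i) (hx1 : ∀ i, x i ≤ 1 / 2)
    (hs : ∀ v, ∑ j ∈ Finset.univ.filter (fun j => v ∈ W j), x j ≤ s)
    (hP : ∀ i, ((A i).card : ℝ) ≤ x i * Real.exp (-(2 * (s * (W i).card))) *
      Fintype.card (I → α)) : ∃ ω : I → α, ∀ i, ω ∉ A i := by
  refine Pool.Agent.Common_LLL.lll_finite A W hA x hx0 (fun i => (hx1 i).trans_lt (by norm_num)) ?_
  intro i
  refine (hP i).trans ?_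
  refine mul_le_mul_of_nonneg_right (mul_le_mul_of_nonneg_left ?_ (hx0 i)) (by positivity)
  have h1 : ∀ j, Real.exp (-(2 * x j)) ≤ 1 - x j := by
    intro j
    have a0 := hx0 j
    have a1 := hx1 j
    have h2 : 1 + 2 * x j ≤ Real.exp (2 * x j) := by
      have := Real.add_one_le_exp (2 * x j)
      linarith
    have h3 : 0 < Real.exp (2 * x j) := Real.exp_pos _
    rw [Real.exp_neg, inv_le_iff_one_le_mul₀ h3]
    have h4 : 1 ≤ (1 - x j) * (1 + 2 * x j) := by nlinarith
    have h5 : (1 - x j) * (1 + 2 * x j) ≤ (1 - x j) * Real.exp (2 * x j) :=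
      mul_le_mul_of_nonneg_left h2 (by linarith)
    exact h4.trans h5
  have h2 : ∑ j ∈ Finset.univ.filter (fun j => j ≠ i ∧ ¬ Disjoint (W j) (W i)), x j ≤
      s * (W i).card := by
    calc ∑ j ∈ Finset.univ.filter (fun j => j ≠ i ∧ ¬ Disjoint (W j) (W i)), x j
        ≤ ∑ j ∈ (W i).biUnion (fun v => Finset.univ.filter (fun j => v ∈ W j)), x j := by
          refine Finset.sum_le_sum_of_subset_of_nonneg ?_ fun j _ _ => hx0 j
          intro j hj
          have hj' := (Finset.mem_filter.1 hj).2.2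
          rw [Finset.not_disjoint_iff] at hj'
          obtain ⟨v, hv1, hv2⟩ := hj'
          exact Finset.mem_biUnion.2 ⟨v, hv2, Finset.mem_filter.2 ⟨Finset.mem_univ _, hv1⟩⟩
      _ ≤ ∑ v ∈ W i, ∑ j ∈ Finset.univ.filter (fun j => v ∈ W j), x j :=
          sum_biUnion_le' _ _ _ hx0
      _ ≤ ∑ v ∈ W i, s := Finset.sum_le_sum fun v _ => hs v
      _ = s * (W i).card := by simp [mul_comm]
  calc Real.exp (-(2 * (s * (W i).card)))
      ≤ Real.exp (∑ j ∈ Finset.univ.filter (fun j => j ≠ i ∧ ¬ Disjoint (W j) (W i)),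
          (-(2 * x j))) := by
        apply Real.exp_le_exp.2
        rw [Finset.sum_neg_distrib, ← Finset.mul_sum]
        linarith
    _ = ∏ j ∈ Finset.univ.filter (fun j => j ≠ i ∧ ¬ Disjoint (W j) (W i)),
          Real.exp (-(2 * x j)) := Real.exp_sum _ _
    _ ≤ ∏ j ∈ Finset.univ.filter (fun j => j ≠ i ∧ ¬ Disjoint (W j) (W i)), (1 - x j) :=
        Finset.prod_le_prod (fun j _ => (Real.exp_pos _).le) fun j _ => h1 j

/-- the weight of the connected sets at a point -/
theorem sum_connected (hC : CntStmt) {ν : Type} [Fintype ν] [DecidableEq ν] (G : ν → ν → Prop)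
    (Δ : ℕ) (hΔ : 1 ≤ Δ) (hG : ∀ x y, G x y → G y x) (hd : ∀ x, {y | G x y}.ncard ≤ Δ) (y : ℝ)
    (hy : 0 ≤ y) (hy2 : 2 * ((Δ : ℝ) ^ 2 * y) ≤ 1) (t : ν) (S : Finset (Finset ν))
    (hS : ∀ T ∈ S, Bld G T ∧ t ∈ T) : ∑ T ∈ S, y ^ T.card ≤ 2 * ((Δ : ℝ) ^ 2 * y) := by
  classical
  have h1 : ∑ T ∈ S, y ^ T.card =
      ∑ n ∈ Finset.range (Fintype.card ν + 1), ∑ T ∈ S.filter (fun T => T.card = n),
        y ^ T.card := by
    rw [Finset.sum_fiberwise_of_maps_to]
    intro T _
    rw [Finset.mem_range]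
    have := Finset.card_le_univ T
    omega
  rw [h1, Finset.sum_range_succ']
  have h0 : S.filter (fun T => T.card = 0) = ∅ := by
    rw [Finset.filter_eq_empty_iff]
    intro T hT h
    have := (hS T hT).2
    rw [Finset.card_eq_zero.1 h] at this
    simp at this
  rw [h0, Finset.sum_empty, add_zero]
  have h2 : ∀ n : ℕ, ∑ T ∈ S.filter (fun T => T.card = n + 1), y ^ T.card ≤
      ((Δ : ℝ) ^ 2 * y) ^ (n + 1) := by
    intro n
    have h3 : ∑ T ∈ S.filter (fun T => T.card = n + 1), y ^ T.card =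
        (S.filter (fun T => T.card = n + 1)).card * y ^ (n + 1) := by
      rw [Finset.sum_congr rfl (g := fun _ => y ^ (n + 1)), Finset.sum_const, nsmul_eq_mul]
      intro T hT
      rw [(Finset.mem_filter.1 hT).2]
    have h4 : (S.filter (fun T => T.card = n + 1)).card ≤ Δ ^ (2 * (n + 1)) := by
      refine le_trans ?_ (hC ν G Δ hΔ hG hd t (n + 1))
      rw [← Set.ncard_coe_finset]
      refine Set.ncard_le_ncard ?_ (Set.toFinite _)
      intro T hT
      have hT' := Finset.mem_filter.1 (Finset.mem_coe.1 hT)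
      exact ⟨(hS T hT'.1).1, (hS T hT'.1).2, hT'.2⟩
    have h5 : ((S.filter (fun T => T.card = n + 1)).card : ℝ) ≤ (Δ : ℝ) ^ (2 * (n + 1)) := by
      exact_mod_cast h4
    rw [h3]
    calc ((S.filter (fun T => T.card = n + 1)).card : ℝ) * y ^ (n + 1)
        ≤ (Δ : ℝ) ^ (2 * (n + 1)) * y ^ (n + 1) := mul_le_mul_of_nonneg_right h5 (by positivity)
      _ = ((Δ : ℝ) ^ 2 * y) ^ (n + 1) := by rw [pow_mul, mul_pow]
  have hz : 0 ≤ (Δ : ℝ) ^ 2 * y := by positivity
  calc ∑ n ∈ Finset.range (Fintype.card ν), ∑ T ∈ S.filter (fun T => T.card = n + 1), y ^ T.card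
      ≤ ∑ n ∈ Finset.range (Fintype.card ν), ((Δ : ℝ) ^ 2 * y) ^ (n + 1) :=
        Finset.sum_le_sum fun n _ => h2 n
    _ = (∑ n ∈ Finset.range (Fintype.card ν), ((Δ : ℝ) ^ 2 * y) ^ n) * ((Δ : ℝ) ^ 2 * y) := by
        rw [Finset.sum_mul]
        exact Finset.sum_congr rfl fun n _ => pow_succ _ _
    _ ≤ 2 * ((Δ : ℝ) ^ 2 * y) := by
        refine mul_le_mul_of_nonneg_right ?_ hz
        have hg := geom_sum_mul_neg ((Δ : ℝ) ^ 2 * y) (Fintype.card ν)
        have hp0 : 0 ≤ ((Δ : ℝ) ^ 2 * y) ^ Fintype.card ν := by positivity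
        have hs0 : 0 ≤ ∑ n ∈ Finset.range (Fintype.card ν), ((Δ : ℝ) ^ 2 * y) ^ n :=
          Finset.sum_nonneg fun n _ => by positivity
        nlinarith

theorem bll (hC : CntStmt) : BllStmt := by
  intro I α ν J _ _ _ _ _ _ _ G sc A sj Aj Δ M1 M2 p hΔ hM1 hM2 hG hd hsc hsc2 hsj hsj2 hA hAj hp
    hAp hAjp hnum
  classical
  have hM1' : (1 : ℝ) ≤ M1 := by exact_mod_cast hM1
  have hM2' : (1 : ℝ) ≤ M2 := by exact_mod_cast hM2
  have hΔ' : (1 : ℝ) ≤ (Δ : ℝ) ^ 2 := one_le_pow₀ (by exact_mod_cast hΔ)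
  -- numbers
  have n1 : 64 * (M1 : ℝ) * (M2 * (Δ ^ 2 * p)) ≤ 1 := by
    calc 64 * (M1 : ℝ) * (M2 * (Δ ^ 2 * p)) = 64 * (M1 : ℝ) * M2 * Δ ^ 2 * p := by ring
      _ ≤ 1 := hnum
  have n0 : 0 ≤ (Δ : ℝ) ^ 2 * p := by positivity
  have n2 : 64 * (Δ ^ 2 * p) ≤ 1 := by
    have a1 : (Δ : ℝ) ^ 2 * p ≤ M2 * (Δ ^ 2 * p) := le_mul_of_one_le_left n0 hM2'
    have a2 : (M2 : ℝ) * (Δ ^ 2 * p) ≤ M1 * (M2 * (Δ ^ 2 * p)) :=
      le_mul_of_one_le_left (by positivity) hM1'
    linarith
  have n3 : p ≤ Δ ^ 2 * p := le_mul_of_one_le_left hp hΔ'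
  have n4 : 4 * p ≤ 1 / 2 := by linarith
  have n5 : ∀ n : ℕ, 1 ≤ n → (4 * p) ^ n ≤ 1 / 2 := by
    intro n hn
    have h1 : (4 * p) ^ n ≤ (4 * p) ^ 1 := pow_le_pow_of_le_one (by positivity) (by linarith) hn
    rw [pow_one] at h1
    linarith
  have hcard : ∀ T : Finset ν, Bld G T → 1 ≤ T.card := by
    intro T hT
    cases hT with
    | one t => simp
    | add T t t' _ _ _ => exact Finset.card_pos.2 (Finset.insert_nonempty _ _)
  -- the exponential
  have hexp : (1 : ℝ) / 4 ≤ Real.exp (-(3 / 8)) := by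
    have := Real.add_one_le_exp (-(3 / 8) : ℝ)
    linarith
  let AA : ({T : Finset ν // Bld G T} ⊕ J) → Finset (I → α) := fun i => match i with
    | .inl T => (A T.1).toFinset
    | .inr j => (Aj j).toFinset
  let WW : ({T : Finset ν // Bld G T} ⊕ J) → Finset I := fun i => match i with
    | .inl T => T.1.biUnion (fun t => (sc t).toFinset)
    | .inr j => (sj j).toFinset
  let xx : ({T : Finset ν // Bld G T} ⊕ J) → ℝ := fun i => match i with
    | .inl T => (4 * p) ^ T.1.card
    | .inr j => 4 * p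
  have key := lll_weights AA WW ?_ xx (3 / (16 * M1)) ?_ ?_ ?_ ?_
  · obtain ⟨ω, hω⟩ := key
    refine ⟨ω, fun T hT h => hω (.inl ⟨T, hT⟩) ?_, fun j h => hω (.inr j) ?_⟩
    · exact Set.mem_toFinset.2 h
    · exact Set.mem_toFinset.2 h
  · rintro (T | j) ω ω' h1 h2
    · refine Set.mem_toFinset.2 (hA T.1 ω ω' ?_ (Set.mem_toFinset.1 h2))
      intro t ht i hi
      exact h1 i (Finset.mem_biUnion.2 ⟨t, ht, Set.mem_toFinset.2 hi⟩)
    · refine Set.mem_toFinset.2 (hAj j ω ω' ?_ (Set.mem_toFinset.1 h2))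
      intro i hi
      exact h1 i (Set.mem_toFinset.2 hi)
  · rintro (T | j)
    · exact pow_nonneg (by positivity) _
    · exact (by positivity : 0 ≤ 4 * p)
  · rintro (T | j)
    · exact n5 _ (hcard _ T.2)
    · exact n4
  · intro v
    have e1 : ∑ j ∈ Finset.univ.filter (fun j => v ∈ WW j), xx j =
        ∑ T ∈ Finset.univ.filter (fun T : {T : Finset ν // Bld G T} => v ∈ WW (.inl T)),
          xx (.inl T) + ∑ j ∈ Finset.univ.filter (fun j : J => v ∈ WW (.inr j)), xx (.inr j) := by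
      simp only [Finset.sum_filter, Fintype.sum_sum_type]
    rw [e1]
    have e2 : ∑ j ∈ Finset.univ.filter (fun j : J => v ∈ WW (.inr j)), xx (.inr j) ≤
        M2 * (4 * p) := by
      have : (Finset.univ.filter (fun j : J => v ∈ WW (.inr j))).card ≤ M2 := by
        have h := hsj2 v
        rw [Set.ncard_eq_toFinset_card'] at h
        refine le_trans (le_of_eq (congrArg _ ?_)) h
        ext j
        simp [WW]
      calc ∑ j ∈ Finset.univ.filter (fun j : J => v ∈ WW (.inr j)), xx (.inr j)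
          = (Finset.univ.filter (fun j : J => v ∈ WW (.inr j))).card * (4 * p) := by
            simp [xx]
        _ ≤ M2 * (4 * p) := mul_le_mul_of_nonneg_right (by exact_mod_cast this) (by positivity)
    have e3 : ∑ T ∈ Finset.univ.filter (fun T : {T : Finset ν // Bld G T} => v ∈ WW (.inl T)),
        xx (.inl T) ≤ M2 * (2 * (Δ ^ 2 * (4 * p))) := by
      have h1 : ∑ T ∈ Finset.univ.filter (fun T : {T : Finset ν // Bld G T} =>
          v ∈ WW (.inl T)), xx (.inl T) =
          ∑ T ∈ Finset.univ.filter (fun T : Finset ν =>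
            Bld G T ∧ v ∈ T.biUnion (fun t => (sc t).toFinset)), (4 * p) ^ T.card := by
        refine (Finset.sum_map (Finset.univ.filter (fun T : {T : Finset ν // Bld G T} =>
          v ∈ WW (.inl T))) (Function.Embedding.subtype _) (fun T : Finset ν =>
          (4 * p) ^ T.card)).symm.trans ?_
        refine Finset.sum_congr ?_ fun _ _ => rfl
        ext T
        simp only [Finset.mem_map, Finset.mem_filter, Finset.mem_univ, true_and,
          Function.Embedding.coe_subtype, Subtype.exists, WW]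
        constructor
        · rintro ⟨T', hT', h, rfl⟩
          exact ⟨hT', h⟩
        · rintro ⟨hT', h⟩
          exact ⟨T, hT', h, rfl⟩
      rw [h1]
      have h2 : Finset.univ.filter (fun T : Finset ν =>
            Bld G T ∧ v ∈ T.biUnion (fun t => (sc t).toFinset)) ⊆
          (Finset.univ.filter (fun t => v ∈ sc t)).biUnion (fun t =>
            Finset.univ.filter (fun T : Finset ν => Bld G T ∧ t ∈ T)) := by
        intro T hT
        simp only [Finset.mem_filter, Finset.mem_univ, true_and, Finset.mem_biUnion,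
          Set.mem_toFinset] at hT ⊢
        obtain ⟨hT, t, ht, hv⟩ := hT
        exact ⟨t, hv, hT, ht⟩
      have h3 : (Finset.univ.filter (fun t => v ∈ sc t)).card ≤ M2 := by
        have h := hsc2 v
        rw [Set.ncard_eq_toFinset_card'] at h
        refine le_trans (le_of_eq (congrArg _ ?_)) h
        ext j
        simp
      calc ∑ T ∈ Finset.univ.filter (fun T : Finset ν =>
            Bld G T ∧ v ∈ T.biUnion (fun t => (sc t).toFinset)), (4 * p) ^ T.card
          ≤ ∑ T ∈ (Finset.univ.filter (fun t => v ∈ sc t)).biUnion (fun t =>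
            Finset.univ.filter (fun T : Finset ν => Bld G T ∧ t ∈ T)), (4 * p) ^ T.card :=
            Finset.sum_le_sum_of_subset_of_nonneg h2 fun _ _ _ => by positivity
        _ ≤ ∑ t ∈ Finset.univ.filter (fun t => v ∈ sc t),
            ∑ T ∈ Finset.univ.filter (fun T : Finset ν => Bld G T ∧ t ∈ T), (4 * p) ^ T.card :=
            sum_biUnion_le' _ _ _ (fun _ => by positivity)
        _ ≤ ∑ t ∈ Finset.univ.filter (fun t => v ∈ sc t), 2 * (Δ ^ 2 * (4 * p)) := by
            refine Finset.sum_le_sum fun t _ => ?_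
            refine sum_connected hC G Δ hΔ hG hd (4 * p) (by positivity) ?_ t _ ?_
            · linarith
            · intro T hT
              exact (Finset.mem_filter.1 hT).2
        _ = (Finset.univ.filter (fun t => v ∈ sc t)).card * (2 * (Δ ^ 2 * (4 * p))) := by
            simp
        _ ≤ M2 * (2 * (Δ ^ 2 * (4 * p))) :=
            mul_le_mul_of_nonneg_right (by exact_mod_cast h3) (by positivity)
    have e4 : (M2 : ℝ) * (4 * p) ≤ 4 * (M2 * (Δ ^ 2 * p)) := by
      have := mul_le_mul_of_nonneg_left n3 (by positivity : (0 : ℝ) ≤ M2)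
      linarith
    rw [le_div_iff₀ (by positivity)]
    nlinarith
  · have hM : ∀ n : ℕ, 2 * (3 / (16 * (M1 : ℝ)) * ((n * M1 : ℕ) : ℝ)) = n * (3 / 8) := by
      intro n
      have : (M1 : ℝ) ≠ 0 := by positivity
      push_cast
      field_simp
      ring
    have hN : ∀ n c : ℕ, c ≤ n * M1 → 1 ≤ 4 ^ n * Real.exp (-(2 * (3 / (16 * (M1 : ℝ)) * c))) := by
      intro n c hc
      have h1 : (c : ℝ) ≤ ((n * M1 : ℕ) : ℝ) := by exact_mod_cast hc
      have h2 : 3 / (16 * (M1 : ℝ)) * c ≤ 3 / (16 * (M1 : ℝ)) * ((n * M1 : ℕ) : ℝ) :=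
        mul_le_mul_of_nonneg_left h1 (by positivity)
      have h3 : Real.exp (-(3 / 8)) ^ n ≤ Real.exp (-(2 * (3 / (16 * (M1 : ℝ)) * c))) := by
        rw [← Real.exp_nat_mul]
        apply Real.exp_le_exp.2
        have := hM n
        linarith
      have h4 : (1 : ℝ) ≤ 4 ^ n * Real.exp (-(3 / 8)) ^ n := by
        rw [← mul_pow]
        exact one_le_pow₀ (by linarith)
      exact h4.trans (mul_le_mul_of_nonneg_left h3 (by positivity))
    rintro (T | j)
    · have h1 : ((AA (.inl T)).card : ℝ) ≤ p ^ T.1.card * Fintype.card (I → α) := by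
        have := hAp T.1 T.2
        rwa [Set.ncard_eq_toFinset_card'] at this
      have h2 : (WW (.inl T)).card ≤ T.1.card * M1 := by
        refine Finset.card_biUnion_le_card_mul _ _ _ fun t _ => ?_
        have := hsc t
        rwa [Set.ncard_eq_toFinset_card'] at this
      have h3 := hN _ _ h2
      refine h1.trans (mul_le_mul_of_nonneg_right ?_ (by positivity))
      show p ^ T.1.card ≤ (4 * p) ^ T.1.card * _
      have h4 : 0 ≤ p ^ T.1.card := by positivity
      calc p ^ T.1.card = p ^ T.1.card * 1 := (mul_one _).symm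
        _ ≤ p ^ T.1.card * (4 ^ T.1.card * Real.exp (-(2 * (3 / (16 * (M1 : ℝ)) *
              (WW (.inl T)).card)))) := mul_le_mul_of_nonneg_left h3 h4
        _ = (4 * p) ^ T.1.card * Real.exp (-(2 * (3 / (16 * (M1 : ℝ)) *
              (WW (.inl T)).card))) := by rw [mul_pow]; ring
    · have h1 : ((AA (.inr j)).card : ℝ) ≤ p * Fintype.card (I → α) := by
        have := hAjp j
        rwa [Set.ncard_eq_toFinset_card'] at this
      have h2 : (WW (.inr j)).card ≤ 1 * M1 := by
        have := hsj j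
        rw [Set.ncard_eq_toFinset_card'] at this
        rw [one_mul]
        exact this
      have h3 := hN _ _ h2
      refine h1.trans (mul_le_mul_of_nonneg_right ?_ (by positivity))
      show p ≤ (4 * p) * _
      calc p = p * 1 := (mul_one _).symm
        _ ≤ p * (4 ^ 1 * Real.exp (-(2 * (3 / (16 * (M1 : ℝ)) *
              (WW (.inr j)).card)))) := mul_le_mul_of_nonneg_left h3 hp
        _ = (4 * p) * Real.exp (-(2 * (3 / (16 * (M1 : ℝ)) *
              (WW (.inr j)).card))) := by ring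

end Pool.Agent.LPY.H87
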