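import Pool.Agent.Helper48_LPY.Stmts

/-!
# LPY, module CNT: the number of connected sets
-/

set_option autoImplicit false

namespace Pool.Agent.LPY.H87

open Pool.Agent.LPY

variable {ν : Type} [DecidableEq ν]

/-- a connected set is covered by a closed walk -/
theorem walk_of_bld (G : ν → ν → Prop) (hG : ∀ x y, G x y → G y x) {T : Finset ν}
    (h : Bld G T) : ∀ t ∈ T, ∃ L : List ν, L.length + 1 = 2 * T.card ∧ L.head? = some t ∧
      L.getLast? = some t ∧ L.IsChain G ∧ L.toFinset = T := by
  induction h with
  | one s =>
    intro t ht
    obtain rfl := Finset.mem_singleton.1 ht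
    exact ⟨[t], by simp, by simp, by simp, by simp, by simp⟩
  | add T s s' hT hs hG' ih =>
    intro t ht
    by_cases hmem : s' ∈ T
    · rw [Finset.insert_eq_self.2 hmem] at ht ⊢
      exact ih t ht
    · rw [Finset.card_insert_of_notMem hmem]
      rcases Finset.mem_insert.1 ht with rfl | ht
      · obtain ⟨L, h1, h2, h3, h4, h5⟩ := ih s hs
        refine ⟨t :: (L ++ [t]), ?_, by simp, (List.getLast?_concat (l := t :: L) (a := t)), ?_, ?_⟩
        · simp only [List.length_cons, List.length_append, List.length_nil]
          omega
        · rw [List.isChain_cons]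
          constructor
          · intro y hy
            have : (L ++ [t]).head? = some s := by
              cases L with
              | nil => simp at h2
              | cons a L => simpa using h2
            rw [this] at hy
            obtain rfl := (Option.mem_some_iff.1 hy)
            exact hG _ _ hG'
          · rw [List.isChain_append]
            refine ⟨h4, by simp, ?_⟩
            intro x hx y hy
            rw [h3] at hx
            simp only [List.head?_cons, Option.mem_some_iff] at hy hx
            subst hx hy
            exact hG'
        · ext x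
          simp only [List.toFinset_cons, List.toFinset_append, Finset.mem_insert, Finset.mem_union,
            List.toFinset_nil, h5]
          simp
          tauto
      · obtain ⟨L, h1, h2, h3, h4, h5⟩ := ih t ht
        have hsL : s ∈ L := by
          rw [← List.mem_toFinset, h5]
          exact hs
        obtain ⟨u, v, rfl⟩ := List.append_of_mem hsL
        refine ⟨u ++ s :: s' :: s :: v, ?_, ?_, ?_, ?_, ?_⟩
        · simp only [List.length_append, List.length_cons] at h1 ⊢
          omega
        · cases u with
          | nil => simpa using h2
          | cons a u => simpa using h2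
        · rw [List.getLast?_append] at h3 ⊢
          simp only [List.getLast?_cons] at h3 ⊢
          cases v with
          | nil => simpa using h3
          | cons a v => simpa using h3
        · rw [List.isChain_append] at h4 ⊢
          obtain ⟨c1, c2, c3⟩ := h4
          refine ⟨c1, ?_, ?_⟩
          · rw [List.isChain_cons_cons, List.isChain_cons_cons]
            exact ⟨hG', hG _ _ hG', c2⟩
          · intro x hx y hy
            exact c3 x hx y (by simpa using hy)
        · ext x
          have := congrArg (fun S => x ∈ S) h5
          simp only [List.toFinset_append, List.toFinset_cons, Finset.mem_union,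
            Finset.mem_insert, eq_iff_iff] at this ⊢
          rw [← this]
          tauto

/-- the walks with `m` steps from `t` (without `t`) -/
noncomputable def walks [Fintype ν] (G : ν → ν → Prop) [DecidableRel G] : ℕ → ν → Finset (List ν)
  | 0, _ => {[]}
  | m + 1, t => (Finset.univ.filter (fun y => G t y)).biUnion
      (fun y => (walks G m y).image (List.cons y))

theorem mem_walks [Fintype ν] (G : ν → ν → Prop) [DecidableRel G] : ∀ (m : ℕ) (t : ν)
    (L : List ν), L.length = m → (t :: L).IsChain G → L ∈ walks G m t
  | 0, t, L, h, _ => by
    rw [List.length_eq_zero_iff.1 h]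
    simp [walks]
  | m + 1, t, [], h, _ => by simp at h
  | m + 1, t, y :: L, h, hc => by
    rw [List.isChain_cons_cons] at hc
    simp only [walks, Finset.mem_biUnion, Finset.mem_filter, Finset.mem_univ, true_and,
      Finset.mem_image]
    exact ⟨y, hc.1, L, mem_walks G m y L (by simpa using h) hc.2, rfl⟩

theorem card_walks [Fintype ν] (G : ν → ν → Prop) [DecidableRel G] (Δ : ℕ)
    (hd : ∀ x, {y | G x y}.ncard ≤ Δ) : ∀ (m : ℕ) (t : ν), (walks G m t).card ≤ Δ ^ m
  | 0, t => by simp [walks]
  | m + 1, t => by
    have h1 : (Finset.univ.filter (fun y => G t y)).card ≤ Δ := by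
      have := hd t
      rw [Set.ncard_eq_toFinset_card'] at this
      convert this using 2
      ext y
      simp
    calc (walks G (m + 1) t).card ≤ ∑ y ∈ Finset.univ.filter (fun y => G t y),
          ((walks G m y).image (List.cons y)).card := Finset.card_biUnion_le
      _ ≤ ∑ y ∈ Finset.univ.filter (fun y => G t y), Δ ^ m :=
          Finset.sum_le_sum fun y _ => Finset.card_image_le.trans (card_walks G Δ hd m y)
      _ = (Finset.univ.filter (fun y => G t y)).card * Δ ^ m := by simp
      _ ≤ Δ * Δ ^ m := Nat.mul_le_mul_right _ h1
      _ = Δ ^ (m + 1) := by ring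

theorem cnt : CntStmt := by
  intro ν _ _ G Δ hΔ hG hd t n
  classical
  have hsub : {T : Finset ν | Bld G T ∧ t ∈ T ∧ T.card = n} ⊆
      (((walks G (2 * n - 2) t).image (fun L => (t :: L).toFinset) : Finset (Finset ν)) :
        Set (Finset ν)) := by
    rintro T ⟨h1, h2, h3⟩
    obtain ⟨L, a1, a2, a3, a4, a5⟩ := walk_of_bld G hG h1 t h2
    cases L with
    | nil => simp at a2
    | cons y L =>
      simp only [List.head?_cons, Option.some.injEq] at a2
      subst a2
      have : L.length = 2 * n - 2 := by
        simp only [List.length_cons] at a1
        omega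
      exact Finset.mem_coe.2 (Finset.mem_image.2 ⟨L, mem_walks G _ _ L this a4, a5⟩)
  calc {T : Finset ν | Bld G T ∧ t ∈ T ∧ T.card = n}.ncard
      ≤ ((((walks G (2 * n - 2) t).image (fun L => (t :: L).toFinset) : Finset (Finset ν)) :
        Set (Finset ν))).ncard := Set.ncard_le_ncard hsub (Finset.finite_toSet _)
    _ = ((walks G (2 * n - 2) t).image (fun L => (t :: L).toFinset)).card :=
        Set.ncard_coe_finset _
    _ ≤ (walks G (2 * n - 2) t).card := Finset.card_image_le
    _ ≤ Δ ^ (2 * n - 2) := card_walks G Δ hd _ t
    _ ≤ Δ ^ (2 * n) := Nat.pow_le_pow_right hΔ (by omega)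

end Pool.Agent.LPY.H87
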